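import Pool.Agent.H256Z.AF.Riem
import Pool.Agent.Helper459.KN

/-! The singular set of an affine fibration is ruled by the limit fibres. -/

set_option autoImplicit false
set_option linter.unusedSectionVars false

namespace Pool.Agent.H256Z.AF

open Set Filter Topology Metric Module

variable {E E' : Type*} [NormedAddCommGroup E] [NormedSpace ℂ E] [FiniteDimensional ℂ E]
  [NormedAddCommGroup E'] [NormedSpace ℂ E'] [FiniteDimensional ℂ E']

/-- Rank of the derivative. -/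
noncomputable def rk (Γ : E → E') (x : E) : ℕ :=
  finrank ℂ (LinearMap.range ((fderiv ℂ Γ x : E →L[ℂ] E') : E →ₗ[ℂ] E'))

/-- Kernel of the derivative. -/
noncomputable def Kr (Γ : E → E') (x : E) : Submodule ℂ E :=
  LinearMap.ker ((fderiv ℂ Γ x : E →L[ℂ] E') : E →ₗ[ℂ] E')

/-- The standing assumptions. -/
structure Hyp (Γ : E → E') (Ω : Set E) (k m : ℕ) : Prop where
  op : IsOpen Ω
  conn : IsPreconnected Ω
  an : AnalyticOnNhd ℂ Γ Ω
  dim : finrank ℂ E = k + m
  le : ∀ x ∈ Ω, rk Γ x ≤ k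
  ex : ∃ x ∈ Ω, rk Γ x = k
  lev : ∀ x ∈ Ω, rk Γ x = k → ∃ V : Submodule ℂ E, finrank ℂ V = m ∧
    {η | η ∈ Ω ∧ Γ η = Γ x} = {η | η ∈ Ω ∧ η - x ∈ V}

/-- The kernel field extends continuously near `x`. -/
def Reg (Γ : E → E') (Ω : Set E) (k m : ℕ) (x : E) : Prop :=
  ∃ U : Set E, IsOpen U ∧ x ∈ U ∧ U ⊆ Ω ∧ ∃ v : Fin m → E → E,
    (∀ i, ContinuousOn (v i) U) ∧ (∀ η ∈ U, LinearIndependent ℂ (fun i => v i η)) ∧
    (∀ η ∈ U, rk Γ η = k → Submodule.span ℂ (Set.range (fun i => v i η)) = Kr Γ η)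

variable {Γ : E → E'} {Ω : Set E} {k m : ℕ}

theorem mem_Kr {x w : E} : w ∈ Kr Γ x ↔ fderiv ℂ Γ x w = 0 := Iff.rfl

theorem Hyp.ker_dim (H : Hyp Γ Ω k m) {x : E} (hx : rk Γ x = k) : finrank ℂ (Kr Γ x) = m := by
  have := LinearMap.finrank_range_add_finrank_ker ((fderiv ℂ Γ x : E →L[ℂ] E') : E →ₗ[ℂ] E')
  rw [H.dim] at this
  unfold rk at hx
  unfold Kr
  omega

theorem const_dir {W : Type*} [NormedAddCommGroup W] [NormedSpace ℂ W] {a : E} {L : W →L[ℂ] E}
    {u0 : W} {c : E'} (hd : DifferentiableAt ℂ Γ (a + L u0))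
    (h : ∀ᶠ u in 𝓝 u0, Γ (a + L u) = c) (u : W) : L u ∈ Kr Γ (a + L u0) := by
  have h1 : HasFDerivAt (fun u => Γ (a + L u)) ((fderiv ℂ Γ (a + L u0)).comp L) u0 :=
    hd.hasFDerivAt.comp u0 (L.hasFDerivAt.const_add a)
  have h2 : HasFDerivAt (fun u => Γ (a + L u)) (0 : W →L[ℂ] E') u0 :=
    (hasFDerivAt_const c u0).congr_of_eventuallyEq h
  have := h1.unique h2
  exact congrArg (fun T : W →L[ℂ] E' => T u) this

theorem Hyp.lev' (H : Hyp Γ Ω k m) {x : E} (hxΩ : x ∈ Ω) (hx : rk Γ x = k) {η : E}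
    (hη : η ∈ Ω) : Γ η = Γ x ↔ η - x ∈ Kr Γ x := by
  obtain ⟨V, hV, hV'⟩ := H.lev x hxΩ hx
  have h1 : ∀ η ∈ Ω, Γ η = Γ x ↔ η - x ∈ V := by
    intro η hη
    have := Set.ext_iff.1 hV' η
    simpa [hη] using this
  have h2 : V ≤ Kr Γ x := by
    intro w hw
    have hc : Continuous (fun u : V => x + V.subtypeL u) := by fun_prop
    have := const_dir (Γ := Γ) (a := x) (L := V.subtypeL) (u0 := 0) (c := Γ x)
      (by simpa using (H.an x hxΩ).differentiableAt)
      (by
        have : ∀ᶠ u : V in 𝓝 0, x + V.subtypeL u ∈ Ω :=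
          hc.continuousAt.preimage_mem_nhds (H.op.mem_nhds (by simpa using hxΩ))
        filter_upwards [this] with u hu
        exact (h1 _ hu).2 (by simp)) ⟨w, hw⟩
    simpa using this
  rw [h1 η hη, Submodule.eq_of_le_of_finrank_eq h2 (by rw [hV, H.ker_dim hx])]

theorem Hyp.delta (H : Hyp Γ Ω k m) : ∃ δ : E → ℂ, AnalyticOnNhd ℂ δ Ω ∧
    (∀ x ∈ Ω, ¬ δ =ᶠ[𝓝 x] 0) ∧ ∀ x ∈ Ω, δ x ≠ 0 → rk Γ x = k := by
  have : CompleteSpace E' := FiniteDimensional.complete ℂ E'
  obtain ⟨x0, hx0, hk⟩ := H.ex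
  set A0 : E →ₗ[ℂ] E' := ((fderiv ℂ Γ x0 : E →L[ℂ] E') : E →ₗ[ℂ] E') with hA0
  obtain ⟨i, s, his⟩ : ∃ (i : (Fin k → ℂ) →ₗ[ℂ] E) (s : E' →ₗ[ℂ] (Fin k → ℂ)),
      ∀ w, s (A0 (i w)) = w := by
    obtain ⟨i, hi⟩ := A0.rangeRestrict.exists_rightInverse_of_surjective A0.range_rangeRestrict
    obtain ⟨s, hs⟩ := (LinearMap.range A0).subtype.exists_leftInverse_of_injective
      (Submodule.ker_subtype _)
    let b : LinearMap.range A0 ≃ₗ[ℂ] (Fin k → ℂ) := LinearEquiv.ofFinrankEq _ _ (by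
      rw [finrank_fin_fun]; exact hk)
    refine ⟨i.comp b.symm.toLinearMap, b.toLinearMap.comp s, fun w => ?_⟩
    have e1 : A0.rangeRestrict (i (b.symm w)) = b.symm w := LinearMap.congr_fun hi _
    have e2 := LinearMap.congr_fun hs (A0.rangeRestrict (i (b.symm w)))
    have e3 : s (A0 (i (b.symm w))) = A0.rangeRestrict (i (b.symm w)) := e2
    show b (s (A0 (i (b.symm w)))) = w
    rw [e3, e1, b.apply_symm_apply]
  let G : E → ((Fin k → ℂ) →L[ℂ] (Fin k → ℂ)) := fun x =>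
    (LinearMap.toContinuousLinearMap s).comp ((fderiv ℂ Γ x).comp (LinearMap.toContinuousLinearMap i))
  have hG : ∀ x ∈ Ω, AnalyticAt ℂ G x := by
    intro x hx
    let T : (E →L[ℂ] E') →L[ℂ] ((Fin k → ℂ) →L[ℂ] (Fin k → ℂ)) :=
      (ContinuousLinearMap.compL ℂ _ _ _ (LinearMap.toContinuousLinearMap s)).comp
        ((ContinuousLinearMap.compL ℂ _ _ _).flip (LinearMap.toContinuousLinearMap i))
    exact (T.analyticAt _).comp_of_eq (H.an x hx).fderiv rfl
  have hG0 : G x0 = 1 := by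
    ext1 w
    exact his w
  have han : AnalyticOnNhd ℂ (fun x => (G x).det) Ω := fun x hx => analyticAt_det (hG x hx)
  refine ⟨fun x => (G x).det, han, fun x hx h => ?_, fun x hx h => le_antisymm (H.le x hx) ?_⟩
  · have := han.eqOn_zero_of_preconnected_of_eventuallyEq_zero H.conn hx h hx0
    simp only [hG0, Pi.zero_apply] at this
    have e : (1 : (Fin k → ℂ) →L[ℂ] (Fin k → ℂ)).det = 1 := LinearMap.det_id
    rw [e] at this
    exact one_ne_zero this
  · have hsur : Function.Surjective (G x) := ((G x).toContinuousLinearEquivOfDetNeZero h).surjective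
    have h1 : (⊤ : Submodule ℂ (Fin k → ℂ)) ≤
        (LinearMap.range ((fderiv ℂ Γ x : E →L[ℂ] E') : E →ₗ[ℂ] E')).map s := by
      intro w _
      obtain ⟨u, rfl⟩ := hsur w
      exact ⟨_, ⟨i u, rfl⟩, rfl⟩
    have h2 := Submodule.finrank_mono h1
    rw [finrank_top, finrank_fin_fun] at h2
    exact h2.trans (Submodule.finrank_map_le _ _)

theorem Hyp.dense (H : Hyp Γ Ω k m) {x : E} (hx : x ∈ Ω) : ∃ᶠ y in 𝓝 x, rk Γ y = k := by
  obtain ⟨δ, -, h2, h3⟩ := H.delta
  have : ∃ᶠ y in 𝓝 x, δ y ≠ 0 := not_eventually.1 (h2 x hx)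
  exact (this.and_eventually (H.op.mem_nhds hx)).mono (fun y hy => h3 y hy.2 hy.1)

/-- A normalised frame. -/
structure NF (Γ : E → E') (Ω : Set E) (k m : ℕ) (U : Set E) (π : E →L[ℂ] (Fin m → ℂ))
    (V : E → ((Fin m → ℂ) →L[ℂ] E)) : Prop where
  op : IsOpen U
  sub : U ⊆ Ω
  cont : ContinuousOn V U
  nrm : ∀ x ∈ U, ∀ u, π (V x u) = u
  ker : ∀ x ∈ U, rk Γ x = k → ∀ u, V x u ∈ Kr Γ x

theorem Reg.nf {η : E} (h : Reg Γ Ω k m η) : ∃ U π V, η ∈ U ∧ NF Γ Ω k m U π V := by
  obtain ⟨U, hU, hη, hsub, v, hv, hli, hsp⟩ := h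
  let v' : E → ((Fin m → ℂ) →L[ℂ] E) := fun x =>
    ∑ i, (ContinuousLinearMap.proj (R := ℂ) (φ := fun _ : Fin m => ℂ) i).smulRight (v i x)
  have hv'a : ∀ x u, v' x u = ∑ i, u i • v i x := by
    intro x u
    simp [v']
  have hv'c : ContinuousOn v' U := by
    refine continuousOn_finsetSum _ (fun i _ => ?_)
    exact ((ContinuousLinearMap.smulRightL ℂ (Fin m → ℂ) E
      (ContinuousLinearMap.proj (R := ℂ) (φ := fun _ : Fin m => ℂ) i)).continuous).comp_continuousOn
      (hv i)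
  obtain ⟨p, hp⟩ := ((v' η : (Fin m → ℂ) →L[ℂ] E) : (Fin m → ℂ) →ₗ[ℂ] E).exists_leftInverse_of_injective
    (by
      rw [LinearMap.ker_eq_bot']
      intro u hu
      have h1 : ∑ i, u i • v i η = 0 := by rw [← hv'a]; exact hu
      funext i
      exact Fintype.linearIndependent_iff.1 (hli η hη) u h1 i)
  let π : E →L[ℂ] (Fin m → ℂ) := LinearMap.toContinuousLinearMap p
  let M : E → ((Fin m → ℂ) →L[ℂ] (Fin m → ℂ)) := fun x => π.comp (v' x)
  have hMc : ContinuousOn M U := continuousOn_const.clm_comp hv'c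
  have hM1 : M η = 1 := by
    ext1 u
    exact LinearMap.congr_fun hp u
  have hO : IsOpen (U ∩ M ⁻¹' {T | IsUnit T}) := hMc.isOpen_inter_preimage hU Units.isOpen
  refine ⟨U ∩ M ⁻¹' {T | IsUnit T}, π, fun x => (v' x).comp (Ring.inverse (M x)),
    ⟨hη, by show IsUnit (M η); rw [hM1]; exact isUnit_one⟩, hO, fun x hx => hsub hx.1, ?_, ?_, ?_⟩
  · refine (hv'c.mono inter_subset_left).clm_comp (fun x hx => ?_)
    obtain ⟨u, hu⟩ := hx.2
    have h1 := NormedRing.inverse_continuousAt u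
    rw [hu] at h1
    exact h1.comp_continuousWithinAt ((hMc.mono inter_subset_left) x hx)
  · intro x hx u
    have := Ring.mul_inverse_cancel (M x) hx.2
    exact congrArg (fun T : (Fin m → ℂ) →L[ℂ] (Fin m → ℂ) => T u) this
  · intro x hx hk u
    rw [← hsp x hx.1 hk]
    show v' x _ ∈ _
    rw [hv'a]
    exact Submodule.sum_mem _ (fun i _ => Submodule.smul_mem _ _ (Submodule.subset_span ⟨i, rfl⟩))

variable {U : Set E} {π : E →L[ℂ] (Fin m → ℂ)} {V : E → ((Fin m → ℂ) →L[ℂ] E)}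

theorem NF.inj (N : NF Γ Ω k m U π V) {x : E} (hx : x ∈ U) : Function.Injective (V x) :=
  fun a b h => by rw [← N.nrm x hx a, h, N.nrm x hx b]

/-- An `m`-dimensional space containing the range of the frame is that range. -/
theorem NF.eq_of_le (N : NF Γ Ω k m U π V) {x : E} (hx : x ∈ U) {K : Submodule ℂ E}
    (hK : finrank ℂ K = m) (h : ∀ u, V x u ∈ K) :
    LinearMap.range (V x : (Fin m → ℂ) →ₗ[ℂ] E) = K := by
  apply Submodule.eq_of_le_of_finrank_eq
  · rintro _ ⟨u, rfl⟩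
    exact h u
  · rw [hK, LinearMap.finrank_range_of_inj (N.inj hx)]
    simp

theorem NF.fix (N : NF Γ Ω k m U π V) {x : E} (hx : x ∈ U) {K : Submodule ℂ E}
    (hK : finrank ℂ K = m) (h : ∀ u, V x u ∈ K) {w : E} (hw : w ∈ K) : V x (π w) = w := by
  rw [← N.eq_of_le hx hK h] at hw
  obtain ⟨u, rfl⟩ := hw
  show V x (π (V x u)) = V x u
  rw [N.nrm x hx]

theorem NF.leaf (H : Hyp Γ Ω k m) (N : NF Γ Ω k m U π V) {x : E} (hx : x ∈ U) {u : Fin m → ℂ}
    (hu : x + V x u ∈ Ω) : Γ (x + V x u) = Γ x := by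
  have hV : ContinuousAt V x := N.cont.continuousAt (N.op.mem_nhds hx)
  have c0 : ContinuousAt (fun y => y + V y u) x :=
    continuousAt_id.add (hV.clm_apply continuousAt_const)
  have c1 : ContinuousAt (fun y => Γ (y + V y u)) x :=
    ContinuousAt.comp (f := fun y => y + V y u) (H.an _ hu).continuousAt c0
  have c2 : ContinuousAt Γ x := (H.an _ (N.sub hx)).continuousAt
  refine tendsto_nhds_unique_of_frequently_eq c1 c2 ?_
  refine ((H.dense (N.sub hx)).and_eventually ((N.op.eventually_mem hx).and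
    (c0.eventually_mem (H.op.mem_nhds hu)))).mono (fun y hy => ?_)
  rw [H.lev' (N.sub hy.2.1) hy.1 hy.2.2, add_sub_cancel_left]
  exact N.ker y hy.2.1 hy.1 u

theorem NF.ker' (H : Hyp Γ Ω k m) (N : NF Γ Ω k m U π V) {x : E} (hx : x ∈ U) {u0 : Fin m → ℂ}
    (hu : x + V x u0 ∈ Ω) (u : Fin m → ℂ) : V x u ∈ Kr Γ (x + V x u0) := by
  refine const_dir (c := Γ x) (H.an _ hu).differentiableAt ?_ u
  have hc : Continuous (fun u => x + V x u) := by fun_prop
  filter_upwards [hc.continuousAt.preimage_mem_nhds (H.op.mem_nhds hu)] with u' hu'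
  exact N.leaf H hx hu'

theorem NF.sep (H : Hyp Γ Ω k m) (N : NF Γ Ω k m U π V) {x : E} (hx : x ∈ U) (hk : rk Γ x = k)
    {w : E} (h1 : w ∈ Kr Γ x) (h2 : π w = 0) : w = 0 := by
  rw [← N.fix hx (H.ker_dim hk) (N.ker x hx hk) h1, h2, map_zero]

theorem NF.analyticAt (H : Hyp Γ Ω k m) (N : NF Γ Ω k m U π V) {x : E} (hx : x ∈ U)
    (hk : rk Γ x = k) : AnalyticAt ℂ V x := by
  have : CompleteSpace E' := FiniteDimensional.complete ℂ E'
  have : CompleteSpace E := FiniteDimensional.complete ℂ E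
  obtain ⟨s, hs⟩ := (((fderiv ℂ Γ x).prod π : E →L[ℂ] E' × (Fin m → ℂ)) :
      E →ₗ[ℂ] E' × (Fin m → ℂ)).exists_leftInverse_of_injective (by
    rw [LinearMap.ker_eq_bot']
    intro w hw
    exact N.sep H hx hk (congrArg Prod.fst hw) (congrArg Prod.snd hw))
  let S : E' × (Fin m → ℂ) →L[ℂ] E := LinearMap.toContinuousLinearMap s
  let S1 : E' →L[ℂ] E := S.comp (ContinuousLinearMap.inl ℂ _ _)
  let S2 : (Fin m → ℂ) →L[ℂ] E := S.comp (ContinuousLinearMap.inr ℂ _ _)
  let G : E → (E →L[ℂ] E) := fun y => S1.comp (fderiv ℂ Γ y) + S2.comp π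
  have hG : AnalyticAt ℂ G x :=
    (((ContinuousLinearMap.compL ℂ E E' E S1).analyticAt _).comp_of_eq
      (H.an x (N.sub hx)).fderiv rfl).add analyticAt_const
  have hG1 : G x = 1 := by
    ext1 w
    have e := LinearMap.congr_fun hs w
    show S (fderiv ℂ Γ x w, 0) + S (0, π w) = w
    rw [← map_add, Prod.mk_add_mk, add_zero, zero_add]
    exact e
  have hunit : ∀ᶠ y in 𝓝 x, IsUnit (G y) :=
    hG.continuousAt.eventually_mem (Units.isOpen.mem_nhds
      (show IsUnit (G x) by rw [hG1]; exact isUnit_one))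
  have hinv : AnalyticAt ℂ (fun y => Ring.inverse (G y)) x := by
    have := analyticAt_inverse (𝕜 := ℂ) (1 : (E →L[ℂ] E)ˣ)
    exact this.comp_of_eq hG hG1
  have hfin : AnalyticAt ℂ (fun y => (Ring.inverse (G y)).comp S2) x :=
    (((ContinuousLinearMap.compL ℂ (Fin m → ℂ) E E).flip S2).analyticAt _).comp_of_eq hinv rfl
  refine hfin.congr ?_
  filter_upwards [hunit, N.op.mem_nhds hx] with y hy hyU
  ext1 u
  have e1 : fderiv ℂ Γ y (V y u) = 0 := by
    have := N.ker' H hyU (u0 := 0) (by simpa using N.sub hyU) u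
    rw [map_zero, add_zero] at this
    exact this
  have e2 : G y (V y u) = S2 u := by
    show S1 (fderiv ℂ Γ y (V y u)) + S2 (π (V y u)) = S2 u
    rw [e1, map_zero, zero_add, N.nrm y hyU]
  show Ring.inverse (G y) (S2 u) = V y u
  rw [← e2]
  exact congrArg (fun T : E →L[ℂ] E => T (V y u)) (Ring.inverse_mul_cancel (G y) hy)

theorem NF.contDiffOn (H : Hyp Γ Ω k m) (N : NF Γ Ω k m U π V) : ContDiffOn ℂ 1 V U := by
  have : CompleteSpace E := FiniteDimensional.complete ℂ E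
  obtain ⟨δ, h1, h2, h3⟩ := H.delta
  have hd : DifferentiableOn ℂ V U := riemann N.op N.cont (h1.mono N.sub)
    (fun x hx => h2 x (N.sub hx)) (fun x hx h => N.analyticAt H hx (h3 x (N.sub hx) h))
  exact Pool.Agent.Helper459.KN.Holo.contDiffOn_of_differentiableOn N.op hd 1

theorem NF.main (H : Hyp Γ Ω k m) (N : NF Γ Ω k m U π V) {η : E} (hη : η ∈ U) {u0 : Fin m → ℂ}
    (hξ : η + V η u0 ∈ Ω) : Reg Γ Ω k m (η + V η u0) := by
  have : CompleteSpace E := FiniteDimensional.complete ℂ E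
  have hC := N.contDiffOn H
  have hCA : ∀ b ∈ U, ContDiffAt ℂ 1 V b := fun b hb => hC.contDiffAt (N.op.mem_nhds hb)
  have hD : ∀ b ∈ U, HasFDerivAt V (fderiv ℂ V b) b := fun b hb =>
    ((hCA b hb).differentiableAt one_ne_zero).hasFDerivAt
  let P : E →L[ℂ] E := ContinuousLinearMap.id ℂ E - (V η).comp π
  have hP : ∀ h, P h = h - V η (π h) := fun h => rfl
  have hπP : ∀ h, π (P h) = 0 := fun h => by rw [hP, map_sub, N.nrm η hη, sub_self]
  have hPV : ∀ u, P (V η u) = 0 := fun u => by rw [hP, N.nrm η hη, sub_self]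
  let p : E → E → E := fun b x => b + P (x - b)
  let Φ : E → E → E := fun b x => p b x + V (p b x) (π (x - b))
  let J : E → (Fin m → ℂ) → (E →L[ℂ] E) := fun b u =>
    P + ((V b).comp π + ((fderiv ℂ V b).comp P).flip u)
  have hpb : ∀ b u, p b (b + V η u) = b := fun b u => by
    show b + P (b + V η u - b) = b
    rw [add_sub_cancel_left, hPV, add_zero]
  have hπb : ∀ b u, π (b + V η u - b) = u := fun b u => by
    rw [add_sub_cancel_left, N.nrm η hη]
  have hpd : ∀ b x, HasFDerivAt (p b) P x := fun b x => by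
    have := (P.hasFDerivAt.comp x ((hasFDerivAt_id x).sub_const b)).const_add b
    rw [ContinuousLinearMap.comp_id] at this
    exact this
  have hΦb : ∀ b u, Φ b (b + V η u) = b + V b u := fun b u => by
    show p b (b + V η u) + V (p b (b + V η u)) (π (b + V η u - b)) = _
    rw [hpb, hπb]
  have hΦd : ∀ b ∈ U, ∀ u, HasFDerivAt (Φ b) (J b u) (b + V η u) := by
    intro b hb u
    have h1 : HasFDerivAt (fun x => V (p b x)) ((fderiv ℂ V b).comp P) (b + V η u) := by
      have h0 : HasFDerivAt V (fderiv ℂ V b) (p b (b + V η u)) := by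
        rw [hpb]; exact hD b hb
      exact h0.comp _ (hpd b _)
    have h2 : HasFDerivAt (fun x => π (x - b)) π (b + V η u) := by
      have := π.hasFDerivAt.comp (b + V η u) ((hasFDerivAt_id (b + V η u)).sub_const b)
      rw [ContinuousLinearMap.comp_id] at this
      exact this
    have h3 := (hpd b (b + V η u)).add (h1.clm_apply h2)
    rw [hpb, hπb] at h3
    exact h3
  have hJinj : ∀ b ∈ U, rk Γ b = k → ∀ u, b + V b u ∈ Ω → (J b u).det ≠ 0 := by
    intro b hb hk u hu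
    have hev : ∀ᶠ x in 𝓝 (b + V η u), Γ (Φ b x) = Γ (p b x) := by
      have e1 : ∀ᶠ x in 𝓝 (b + V η u), p b x ∈ U :=
        (hpd b _).continuousAt.eventually_mem (by rw [hpb]; exact N.op.mem_nhds hb)
      have e2 : ∀ᶠ x in 𝓝 (b + V η u), Φ b x ∈ Ω :=
        (hΦd b hb u).continuousAt.eventually_mem (by rw [hΦb]; exact H.op.mem_nhds hu)
      filter_upwards [e1, e2] with x h1 h2
      exact N.leaf H h1 h2
    have d1 : HasFDerivAt (fun x => Γ (Φ b x)) ((fderiv ℂ Γ (b + V b u)).comp (J b u))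
        (b + V η u) := by
      have h0 : HasFDerivAt Γ (fderiv ℂ Γ (b + V b u)) (Φ b (b + V η u)) := by
        rw [hΦb]; exact (H.an _ hu).differentiableAt.hasFDerivAt
      exact h0.comp _ (hΦd b hb u)
    have d2 : HasFDerivAt (fun x => Γ (p b x)) ((fderiv ℂ Γ b).comp P) (b + V η u) := by
      have h0 : HasFDerivAt Γ (fderiv ℂ Γ b) (p b (b + V η u)) := by
        rw [hpb]; exact (H.an _ (N.sub hb)).differentiableAt.hasFDerivAt
      exact h0.comp _ (hpd b _)
    have e := d1.unique (d2.congr_of_eventuallyEq hev)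
    intro hdet
    have hnt := LinearMap.bot_lt_ker_of_det_eq_zero hdet
    obtain ⟨h, hh, hh0⟩ := (Submodule.ne_bot_iff _).1 hnt.ne'
    have hh' : J b u h = 0 := hh
    have e1 : fderiv ℂ Γ (b + V b u) (J b u h) = fderiv ℂ Γ b (P h) :=
      congrArg (fun T : E →L[ℂ] E' => T h) e
    rw [hh', map_zero] at e1
    have e2 : P h = 0 := N.sep H hb hk e1.symm (hπP h)
    have e3 : P h + (V b (π h) + fderiv ℂ V b (P h) u) = 0 := hh'
    rw [e2, map_zero, zero_add, zero_apply, add_zero] at e3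
    have e4 : π h = 0 := by rw [← N.nrm b hb (π h), e3, map_zero]
    rw [hP, e4, map_zero, sub_zero] at e2
    exact hh0 e2
  have hVc : ContinuousAt V η := N.cont.continuousAt (N.op.mem_nhds hη)
  have hDc : ContinuousAt (fderiv ℂ V) η :=
    (hC.continuousOn_fderiv_of_isOpen N.op le_rfl).continuousAt (N.op.mem_nhds hη)
  have hdet : (J η u0).det ≠ 0 := by
    have := fun ε : ℝ => hurwitz_one (d := fun b s => (J b (s • u0)).det) (η := η) (ε := ε)
      (fun s => by
        refine ContinuousLinearMap.continuous_det.continuousAt.comp ?_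
        have c1 : ContinuousAt (fun q : E × ℂ => V q.1) (η, s) :=
          ContinuousAt.comp (f := fun q : E × ℂ => q.1) hVc continuousAt_fst
        have c2 : ContinuousAt (fun q : E × ℂ => fderiv ℂ V q.1) (η, s) :=
          ContinuousAt.comp (f := fun q : E × ℂ => q.1) hDc continuousAt_fst
        refine continuousAt_const.add ((c1.clm_comp continuousAt_const).add ?_)
        refine ContinuousAt.clm_apply ?_ (by fun_prop)
        exact (ContinuousLinearMap.flipₗᵢ ℂ E (Fin m → ℂ) E).continuous.continuousAt.comp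
          (c2.clm_comp continuousAt_const))
      (fun b s => by
        refine (analyticAt_det ?_).differentiableAt
        refine analyticAt_const.add (analyticAt_const.add ?_)
        exact ((((fderiv ℂ V b).comp P).flip).analyticAt _).comp_of_eq
          (analyticAt_id.smul analyticAt_const) rfl)
      (by
        have e : J η ((0 : ℂ) • u0) = 1 := by
          ext1 h
          show P h + (V η (π h) + fderiv ℂ V η (P h) ((0 : ℂ) • u0)) = h
          rw [zero_smul, map_zero, add_zero, hP, sub_add_cancel]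
        show (J η ((0 : ℂ) • u0)).det ≠ 0
        rw [e]
        have e' : (1 : E →L[ℂ] E).det = 1 := LinearMap.det_id
        rw [e']
        exact one_ne_zero)
    have c3 : ContinuousAt (fun q : E × ℂ => q.1 + V q.1 (q.2 • u0)) (η, 1) :=
      continuousAt_fst.add ((ContinuousAt.comp (f := fun q : E × ℂ => q.1) hVc
        continuousAt_fst).clm_apply (by fun_prop))
    have c4 : ∀ᶠ q : E × ℂ in 𝓝 (η, 1), q.1 + V q.1 (q.2 • u0) ∈ Ω :=
      c3.eventually_mem (H.op.mem_nhds (by simpa using hξ))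
    rw [nhds_prod_eq] at c4
    obtain ⟨pa, hpa, pb, hpb', hpab⟩ := eventually_prod_iff.1 c4
    obtain ⟨ε, hε, hεb⟩ := Metric.eventually_nhds_iff_ball.1 hpb'
    have h5 := this ε hε (((H.dense (N.sub hη)).and_eventually
      (hpa.and (N.op.eventually_mem hη))).mono (fun b hb s hs =>
        hJinj b hb.2.2 hb.1 _ (hpab hb.2.1 (hεb s hs))))
    simpa using h5
  have hΦc : ContDiffAt ℂ 1 (Φ η) (η + V η u0) := by
    have c1 : ContDiffAt ℂ 1 (p η) (η + V η u0) :=
      contDiffAt_const.add (P.contDiff.contDiffAt.comp _ (contDiffAt_id.sub contDiffAt_const))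
    have c2 : ContDiffAt ℂ 1 V (p η (η + V η u0)) := by rw [hpb]; exact hCA η hη
    exact c1.add ((c2.comp _ c1).clm_apply
      (π.contDiff.contDiffAt.comp _ (contDiffAt_id.sub contDiffAt_const)))
  have hΦd' : HasFDerivAt (Φ η)
      (((J η u0).toContinuousLinearEquivOfDetNeZero hdet : E ≃L[ℂ] E) : E →L[ℂ] E)
      (η + V η u0) := by
    rw [ContinuousLinearMap.coe_toContinuousLinearEquivOfDetNeZero]
    exact hΦd η hη u0
  let e := hΦc.toOpenPartialHomeomorph (Φ η) hΦd' one_ne_zero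
  have hsrc : η + V η u0 ∈ e.source := hΦc.mem_toOpenPartialHomeomorph_source hΦd' one_ne_zero
  have hev : e (η + V η u0) = η + V η u0 := hΦb η u0
  have htgt : η + V η u0 ∈ e.target := by
    have := e.map_source hsrc
    rwa [hev] at this
  have hsym : e.symm (η + V η u0) = η + V η u0 := by
    have := e.left_inv hsrc
    rwa [hev] at this
  have hpc : Continuous (p η) := continuous_iff_continuousAt.2 (fun x => (hpd η x).continuousAt)
  have hq : ContinuousOn (fun y => p η (e.symm y)) e.target :=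
    hpc.comp_continuousOn e.continuousOn_symm
  have hO : IsOpen (e.target ∩ (fun y => p η (e.symm y)) ⁻¹' U) :=
    hq.isOpen_inter_preimage e.open_target N.op
  refine ⟨e.target ∩ (fun y => p η (e.symm y)) ⁻¹' U ∩ Ω, hO.inter H.op,
    ⟨⟨htgt, ?_⟩, hξ⟩, inter_subset_right,
    fun i y => V (p η (e.symm y)) (Pi.basisFun ℂ (Fin m) i), fun i => ?_, fun y hy => ?_,
    fun y hy hk => ?_⟩
  · show p η (e.symm (η + V η u0)) ∈ U
    rw [hsym, hpb]
    exact hη
  · exact (N.cont.comp (hq.mono (fun y hy => hy.1.1)) (fun y hy => hy.1.2)).clm_apply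
      continuousOn_const
  · exact (Pi.basisFun ℂ (Fin m)).linearIndependent.map'
      (V (p η (e.symm y)) : (Fin m → ℂ) →ₗ[ℂ] E) (LinearMap.ker_eq_bot.2 (N.inj hy.1.2))
  · have h1 : p η (e.symm y) + V (p η (e.symm y)) (π (e.symm y - η)) = y := e.right_inv hy.1.1
    have h2 := N.ker' H hy.1.2 (u0 := π (e.symm y - η)) (by rw [h1]; exact hy.2)
    rw [h1] at h2
    rw [← N.eq_of_le hy.1.2 (H.ker_dim hk) h2, LinearMap.range_eq_map,
      ← (Pi.basisFun ℂ (Fin m)).span_eq, Submodule.map_span, ← Set.range_comp]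
    rfl

theorem ruled (H : Hyp Γ Ω k m) (hm : 0 < m) {ξ : E} (hξ : ξ ∈ Ω) :
    ∃ w : E, w ≠ 0 ∧ ∀ t : ℂ, Reg Γ Ω k m (ξ + t • w) → Reg Γ Ω k m ξ := by
  have : ProperSpace E := FiniteDimensional.proper ℂ E
  obtain ⟨x, hx, hx'⟩ := exists_seq_forall_of_frequently
    ((H.dense hξ).and_eventually (H.op.eventually_mem hξ))
  have hw : ∀ j, ∃ w ∈ sphere (0 : E) 1, w ∈ Kr Γ (x j) := by
    intro j
    have h1 : Kr Γ (x j) ≠ ⊥ := by
      intro h
      have := H.ker_dim (hx' j).1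
      rw [h, finrank_bot] at this
      omega
    obtain ⟨a, ha, ha0⟩ := (Submodule.ne_bot_iff _).1 h1
    refine ⟨((‖a‖⁻¹ : ℝ) : ℂ) • a, ?_, Submodule.smul_mem _ _ ha⟩
    rw [mem_sphere_zero_iff_norm, norm_smul, Complex.norm_real, norm_inv, norm_norm,
      inv_mul_cancel₀ (norm_ne_zero_iff.2 ha0)]
  choose w hw1 hw2 using hw
  obtain ⟨a, ha, φ, hφ, hlim⟩ := (isCompact_sphere (0 : E) 1).tendsto_subseq hw1
  refine ⟨a, by rintro rfl; simp at ha, fun t ht => ?_⟩
  obtain ⟨U, π, V, hη, N⟩ := ht.nf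
  have hxφ : Tendsto (fun j => x (φ j)) atTop (𝓝 ξ) := hx.comp hφ.tendsto_atTop
  have hy : Tendsto (fun j => x (φ j) + t • w (φ j)) atTop (𝓝 (ξ + t • a)) :=
    hxφ.add (hlim.const_smul t)
  have hVc : ContinuousAt V (ξ + t • a) := N.cont.continuousAt (N.op.mem_nhds hη)
  have h1 : Tendsto (fun j => V (x (φ j) + t • w (φ j)) (π (w (φ j)))) atTop
      (𝓝 (V (ξ + t • a) (π a))) := by
    have c : ContinuousAt (fun q : E × E => V q.1 (π q.2)) (ξ + t • a, a) :=
      (ContinuousAt.comp (f := fun q : E × E => q.1) hVc continuousAt_fst).clm_apply (by fun_prop)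
    exact c.tendsto.comp (hy.prodMk_nhds hlim)
  have h2 : V (ξ + t • a) (π a) = a := by
    refine tendsto_nhds_unique_of_eventuallyEq h1 hlim ?_
    filter_upwards [hy.eventually_mem (N.op.mem_nhds hη)] with j hj
    refine N.fix hj (H.ker_dim (hx' (φ j)).1) (fun u => ?_) (hw2 _)
    set y := x (φ j) + t • w (φ j) with hyd
    have e1 : Γ y = Γ (x (φ j)) := by
      rw [H.lev' (hx' _).2 (hx' _).1 (N.sub hj), hyd, add_sub_cancel_left]
      exact Submodule.smul_mem _ _ (hw2 _)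
    have hc : Continuous (fun s : ℂ => y + V y (s • u)) := by fun_prop
    have e2 : ∀ᶠ s : ℂ in 𝓝[≠] 0, y + V y (s • u) ∈ Ω :=
      mem_nhdsWithin_of_mem_nhds
        (hc.continuousAt.preimage_mem_nhds (H.op.mem_nhds (by simpa using N.sub hj)))
    obtain ⟨s, hs, hs0⟩ := (e2.and self_mem_nhdsWithin).exists
    have e3 := N.leaf H hj hs
    rw [e1, H.lev' (hx' _).2 (hx' _).1 hs] at e3
    have e4 : V y (s • u) ∈ Kr Γ (x (φ j)) := by
      have := Submodule.sub_mem _ e3 (Submodule.smul_mem _ t (hw2 (φ j)))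
      rwa [show y + V y (s • u) - x (φ j) - t • w (φ j) = V y (s • u) by rw [hyd]; abel] at this
    rw [map_smul] at e4
    exact (Submodule.smul_mem_iff _ hs0).1 e4
  have h3 : ξ + t • a + V (ξ + t • a) (-t • π a) = ξ := by
    rw [map_smul, h2, neg_smul, add_neg_cancel_right]
  have := N.main H hη (u0 := -t • π a) (by rw [h3]; exact hξ)
  rwa [h3] at this

end Pool.Agent.H256Z.AF
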