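import Mathlib

/-! Riemann extension in several variables, a Hurwitz type lemma, analyticity of determinants. -/

set_option autoImplicit false

namespace Pool.Agent.H256Z.AF

open Set Filter Topology Metric MeasureTheory

variable {E F : Type*} [NormedAddCommGroup E] [NormedSpace ℂ E]
  [NormedAddCommGroup F] [NormedSpace ℂ F]

theorem analyticAt_line (z e : E) (t : ℂ) : AnalyticAt ℂ (fun s : ℂ => z + s • e) t :=
  analyticAt_const.add (analyticAt_id.smul analyticAt_const)

theorem riemann [CompleteSpace F] {f : E → F} {δ : E → ℂ} {U : Set E} (hU : IsOpen U)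
    (hf : ContinuousOn f U) (hδ : AnalyticOnNhd ℂ δ U) (hne : ∀ x ∈ U, ¬ δ =ᶠ[𝓝 x] 0)
    (hd : ∀ x ∈ U, δ x ≠ 0 → AnalyticAt ℂ f x) : DifferentiableOn ℂ f U := by
  intro z0 hz0
  apply DifferentiableAt.differentiableWithinAt
  obtain ⟨r, hr, hball⟩ := Metric.isOpen_iff.1 hU z0 hz0
  obtain ⟨y, hy, hy'⟩ : ∃ y ∈ ball z0 r, δ y ≠ 0 := by
    by_contra h
    push Not at h
    apply hne z0 hz0
    filter_upwards [ball_mem_nhds z0 hr] with x hx using h x hx
  set e := y - z0 with he
  have hcont : Continuous (fun p : E × ℂ => p.1 + p.2 • e) := by fun_prop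
  have hO : Convex ℝ {t : ℂ | z0 + t • e ∈ ball z0 r} := by
    intro a ha b hb s t hs ht hst
    have := convex_ball z0 r ha hb hs ht hst
    show z0 + (s • a + t • b) • e ∈ ball z0 r
    convert this using 1
    rw [smul_add, smul_add, add_smul, smul_assoc, smul_assoc]
    have h1 : z0 = s • z0 + t • z0 := by rw [← add_smul, hst, one_smul]
    conv_lhs => rw [h1]
    abel
  have hg : AnalyticOnNhd ℂ (fun t : ℂ => δ (z0 + t • e)) {t : ℂ | z0 + t • e ∈ ball z0 r} :=
    fun t ht => (hδ _ (hball ht)).comp_of_eq (analyticAt_line z0 e t) rfl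
  have h0O : (0 : ℂ) ∈ {t : ℂ | z0 + t • e ∈ ball z0 r} := by simpa using hr
  have h1O : (1 : ℂ) ∈ {t : ℂ | z0 + t • e ∈ ball z0 r} := by
    simpa [he, dist_eq_norm] using hy
  have hev : ∀ᶠ t in 𝓝[≠] (0 : ℂ), δ (z0 + t • e) ≠ 0 := by
    rcases (hg 0 h0O).eventually_eq_zero_or_eventually_ne_zero with h | h
    · exfalso
      have := hg.eqOn_zero_of_preconnected_of_eventuallyEq_zero hO.isPreconnected h0O h h1O
      simp only [he, one_smul, add_sub_cancel, Pi.zero_apply] at this
      exact hy' this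
    · exact h
  have hOo : IsOpen {t : ℂ | z0 + t • e ∈ ball z0 r} :=
    isOpen_ball.preimage (by fun_prop : Continuous (fun t : ℂ => z0 + t • e))
  obtain ⟨ρ, hρ, hρ'⟩ : ∃ ρ > 0, ∀ t ∈ closedBall (0 : ℂ) ρ,
      z0 + t • e ∈ U ∧ (t ≠ 0 → δ (z0 + t • e) ≠ 0) := by
    rw [eventually_nhdsWithin_iff] at hev
    obtain ⟨ε, hε, h⟩ := Metric.eventually_nhds_iff_ball.1 (hev.and (hOo.mem_nhds h0O))
    refine ⟨ε / 2, by positivity, fun t ht => ?_⟩
    have := h t (closedBall_subset_ball (by linarith) ht)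
    exact ⟨hball this.2, this.1⟩
  have hsph : ∀ t ∈ sphere (0 : ℂ) ρ, z0 + t • e ∈ U ∧ δ (z0 + t • e) ≠ 0 := by
    intro t ht
    refine ⟨(hρ' t (sphere_subset_closedBall ht)).1, (hρ' t (sphere_subset_closedBall ht)).2 ?_⟩
    rintro rfl
    simp at ht
    linarith
  have hfd : ∀ t ∈ sphere (0 : ℂ) ρ, ContinuousAt (fun p : E × ℂ => fderiv ℂ f (p.1 + p.2 • e))
      (z0, t) := fun t ht =>
    ContinuousAt.comp (f := fun p : E × ℂ => p.1 + p.2 • e)
      (hd _ (hsph t ht).1 (hsph t ht).2).fderiv.continuousAt hcont.continuousAt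
  obtain ⟨M, hM⟩ := (isCompact_sphere (0 : ℂ) ρ).exists_bound_of_continuousOn
    (f := fun t : ℂ => fderiv ℂ f (z0 + t • e)) (fun t ht =>
      (ContinuousAt.comp (f := fun t : ℂ => (z0, t)) (hfd t ht)
        (by fun_prop)).continuousWithinAt)
  have ev1 : ∀ᶠ z in 𝓝 z0, ∀ t ∈ closedBall (0 : ℂ) ρ, z + t • e ∈ U :=
    (isCompact_closedBall (0 : ℂ) ρ).eventually_forall_of_forall_eventually (fun t ht =>
      hcont.continuousAt.preimage_mem_nhds (hU.mem_nhds (hρ' t ht).1))
  have ev2 : ∀ᶠ z in 𝓝 z0, ∀ t ∈ sphere (0 : ℂ) ρ, δ (z + t • e) ≠ 0 ∧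
      ‖fderiv ℂ f (z + t • e)‖ ≤ M + 1 :=
    (isCompact_sphere (0 : ℂ) ρ).eventually_forall_of_forall_eventually (fun t ht => by
      have c1 : ContinuousAt (fun p : E × ℂ => δ (p.1 + p.2 • e)) (z0, t) :=
        ContinuousAt.comp (f := fun p : E × ℂ => p.1 + p.2 • e)
          (hδ _ (hsph t ht).1).continuousAt hcont.continuousAt
      refine (c1.eventually_ne (hsph t ht).2).and ?_
      have := (hfd t ht).norm.eventually_lt (continuousAt_const (y := M + 1))
        (by have := hM t ht; simp only; linarith)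
      exact this.mono (fun _ h => h.le))
  have hρa : |ρ| = ρ := abs_of_pos hρ
  have key : ∀ᶠ z in 𝓝 z0, f z =
      (2 * Real.pi)⁻¹ • ∫ θ in (0 : ℝ)..2 * Real.pi, f (z + circleMap 0 ρ θ • e) := by
    filter_upwards [ev1, ev2] with z h1 h2
    have hgz : AnalyticOnNhd ℂ (fun t : ℂ => δ (z + t • e)) (closedBall 0 ρ) :=
      fun t ht => (hδ _ (h1 t ht)).comp_of_eq (analyticAt_line z e t) rfl
    have hfin : (closedBall (0 : ℂ) ρ \ {t | δ (z + t • e) ≠ 0}).Finite := by
      rcases hgz.eqOn_zero_or_eventually_ne_zero_of_preconnected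
        (convex_closedBall _ _).isPreconnected with h | h
      · exfalso
        have hmem : (ρ : ℂ) ∈ sphere (0 : ℂ) ρ := by simp [hρa]
        exact (h2 _ hmem).1 (h (sphere_subset_closedBall hmem))
      · exact (isCompact_closedBall _ _).finite_sdiff_of_mem_codiscreteWithin h
    have := circleAverage_of_differentiable_on_off_countable (f := fun t : ℂ => f (z + t • e))
      (c := 0) (R := ρ) hfin.countable
      (by
        rw [hρa]
        exact hf.comp (by fun_prop) h1)
      (by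
        rw [hρa]
        rintro t ⟨ht, ht'⟩
        have ht2 := ball_subset_closedBall ht
        have : δ (z + t • e) ≠ 0 := by
          by_contra h
          exact ht' ⟨ht2, fun h' => h' h⟩
        exact ((hd _ (h1 t ht2) this).comp_of_eq (analyticAt_line z e t) rfl).differentiableAt)
    rw [Real.circleAverage_def] at this
    simpa using this.symm
  have hcm : ∀ θ : ℝ, circleMap 0 ρ θ ∈ sphere (0 : ℂ) ρ := fun θ => circleMap_mem_sphere 0 hρ.le θ
  have hcontθ : ∀ z : E, (∀ t ∈ closedBall (0 : ℂ) ρ, z + t • e ∈ U) →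
      Continuous (fun θ : ℝ => f (z + circleMap 0 ρ θ • e)) := fun z hz =>
    hf.comp_continuous (by fun_prop) (fun θ => hz _ (sphere_subset_closedBall (hcm θ)))
  have hint := intervalIntegral.hasFDerivAt_integral_of_dominated_of_fderiv_le (𝕜 := ℂ)
    (μ := volume) (a := 0) (b := 2 * Real.pi) (bound := fun _ => M + 1)
    (F := fun z θ => f (z + circleMap 0 ρ θ • e))
    (F' := fun z θ => fderiv ℂ f (z + circleMap 0 ρ θ • e)) (x₀ := z0) (ev1.and ev2)
    (ev1.mono (fun z hz => (hcontθ z hz).aestronglyMeasurable))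
    ((hcontθ z0 ev1.self_of_nhds).intervalIntegrable _ _)
    (Continuous.aestronglyMeasurable (continuous_iff_continuousAt.2 (fun θ =>
      ContinuousAt.comp (f := fun θ : ℝ => (z0, circleMap 0 ρ θ)) (hfd _ (hcm θ))
        (by fun_prop))))
    (Eventually.of_forall (fun θ _ z hz => (hz.2 _ (hcm θ)).2))
    intervalIntegrable_const
    (Eventually.of_forall (fun θ _ z hz => by
      have h1 := (hd _ (hz.1 _ (sphere_subset_closedBall (hcm θ)))
        (hz.2 _ (hcm θ)).1).differentiableAt.hasFDerivAt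
      have h2 := h1.comp z ((hasFDerivAt_id z).add_const (circleMap 0 ρ θ • e))
      rw [ContinuousLinearMap.comp_id] at h2
      exact h2))
  exact (hint.differentiableAt.const_smul (2 * Real.pi)⁻¹).congr_of_eventuallyEq key

theorem hurwitz_one {B : Type*} [TopologicalSpace B] {d : B → ℂ → ℂ} {η : B}
    (hc : ∀ s, ContinuousAt (fun p : B × ℂ => d p.1 p.2) (η, s))
    (hd : ∀ b, Differentiable ℂ (d b)) (h0 : d η 0 ≠ 0) {ε : ℝ} (hε : 0 < ε)
    (hne : ∃ᶠ b in 𝓝 η, ∀ s ∈ ball (1 : ℂ) ε, d b s ≠ 0) : d η 1 ≠ 0 := by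
  intro h1
  have han : AnalyticOnNhd ℂ (d η) univ := fun s _ => (hd η).analyticAt s
  have hev : ∀ᶠ t in 𝓝[≠] (1 : ℂ), d η t ≠ 0 := by
    rcases (han 1 trivial).eventually_eq_zero_or_eventually_ne_zero with h | h
    · exact absurd (han.eqOn_zero_of_preconnected_of_eventuallyEq_zero isPreconnected_univ
        (mem_univ 1) h (mem_univ 0)) h0
    · exact h
  rw [eventually_nhdsWithin_iff] at hev
  obtain ⟨ε', hε', h⟩ := Metric.eventually_nhds_iff_ball.1 hev
  set ρ := min ε ε' / 2 with hρ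
  have hρ0 : 0 < ρ := by positivity
  have hρ1 : ρ < ε := by have := min_le_left ε ε'; linarith [lt_min hε hε']
  have hρ2 : ρ < ε' := by have := min_le_right ε ε'; linarith [lt_min hε hε']
  have hsph : ∀ s ∈ sphere (1 : ℂ) ρ, d η s ≠ 0 := by
    intro s hs
    refine h s (closedBall_subset_ball hρ2 (sphere_subset_closedBall hs)) ?_
    rintro rfl
    simp at hs
    linarith
  obtain ⟨s0, hs0, hmin⟩ := (isCompact_sphere (1 : ℂ) ρ).exists_isMinOn
    (NormedSpace.sphere_nonempty.2 hρ0.le) (hd η).continuous.norm.continuousOn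
  set m := ‖d η s0‖ with hm
  have hm0 : 0 < m := norm_pos_iff.2 (hsph s0 hs0)
  have ev1 : ∀ᶠ b in 𝓝 η, ∀ s ∈ sphere (1 : ℂ) ρ, m / 2 < ‖d b s‖ :=
    (isCompact_sphere (1 : ℂ) ρ).eventually_forall_of_forall_eventually (fun s hs =>
      continuousAt_const.eventually_lt (hc s).norm (by
        have : m ≤ ‖d η s‖ := hmin hs
        simp only
        linarith))
  have ev2 : ∀ᶠ b in 𝓝 η, ‖d b 1‖ < m / 2 := by
    have c1 : ContinuousAt (fun b : B => d b 1) η :=
      ContinuousAt.comp (f := fun b : B => (b, (1 : ℂ))) (hc 1) (by fun_prop)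
    exact c1.norm.eventually_lt continuousAt_const (by simp only [h1, norm_zero]; linarith)
  obtain ⟨b, hb1, hb2, hb3⟩ := (hne.and_eventually (ev1.and ev2)).exists
  have hdc : DiffContOnCl ℂ (fun s => (d b s)⁻¹) (ball 1 ρ) := by
    apply DifferentiableOn.diffContOnCl
    rw [closure_ball _ hρ0.ne']
    intro s hs
    exact (((hd b) s).inv (hb1 s (closedBall_subset_ball hρ1 hs))).differentiableWithinAt
  have := Complex.norm_le_of_forall_mem_frontier_norm_le isBounded_ball hdc (C := (m / 2)⁻¹)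
    (fun s hs => by
      rw [frontier_ball _ hρ0.ne'] at hs
      rw [norm_inv]
      exact inv_anti₀ (by positivity) (hb2 s hs).le) (z := 1)
    (subset_closure (mem_ball_self hρ0))
  rw [norm_inv] at this
  have h3 : 0 < ‖d b 1‖ := norm_pos_iff.2 (hb1 1 (mem_ball_self hε))
  have := (inv_le_inv₀ h3 (by positivity)).1 this
  linarith

theorem analyticAt_det [FiniteDimensional ℂ F] {f : E → (F →L[ℂ] F)} {x : E}
    (hf : AnalyticAt ℂ f x) : AnalyticAt ℂ (fun y => (f y).det) x := by
  classical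
  let b := Module.finBasis ℂ F
  have : (fun y => (f y).det) = fun y => ∑ σ : Equiv.Perm (Fin (Module.finrank ℂ F)),
      ((Equiv.Perm.sign σ : ℤ) : ℂ) * ∏ i, b.coord (σ i) (f y (b i)) := by
    funext y
    rw [ContinuousLinearMap.det, ← LinearMap.det_toMatrix b, Matrix.det_apply']
    simp [LinearMap.toMatrix_apply]
  rw [this]
  refine Finset.analyticAt_fun_sum _ (fun σ _ => analyticAt_const.mul ?_)
  refine Finset.analyticAt_fun_prod _ (fun i _ => ?_)
  exact ((LinearMap.toContinuousLinearMap (b.coord (σ i))).analyticAt _).comp_of_eq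
    (((ContinuousLinearMap.apply ℂ F (b i)).analyticAt _).comp_of_eq hf rfl) rfl

end Pool.Agent.H256Z.AF
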